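import Pool.Agent.Helper14.Sq.Lll

/-!
MP_134267_co, low degrees: two facts on uniform product spaces (helper14):
Chebyshev for a sum of events with local supports, and one-coordinate monotonicity.
-/

set_option autoImplicit false

namespace Pool.Agent.HDL

open Finset Pool.Agent.Helper14.Sq

/-- An event which is increasing in the coordinate `i` contains, with `a i = true`, at least one
half of its points. -/
theorem half_of_mono {P : Type*} [Fintype P] [DecidableEq P] (A : Finset (P → Bool)) (i : P)
    (hA : ∀ a ∈ A, Function.update a i true ∈ A) :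
    A.card ≤ 2 * (A.filter (fun a => a i = true)).card := by
  have h1 : (A.filter (fun a => ¬ a i = true)).card ≤ (A.filter (fun a => a i = true)).card := by
    apply Finset.card_le_card_of_injOn (fun a => Function.update a i true)
    · intro a ha
      have ha' := Finset.mem_filter.mp (Finset.mem_coe.mp ha)
      apply Finset.mem_coe.mpr
      rw [Finset.mem_filter]
      exact ⟨hA a ha'.1, by simp⟩
    · intro a ha b hb hab
      have ha' := (Finset.mem_filter.mp (Finset.mem_coe.mp ha)).2
      have hb' := (Finset.mem_filter.mp (Finset.mem_coe.mp hb)).2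
      funext j
      by_cases hj : j = i
      · subst hj
        have h2 : a j = false := by simpa using ha'
        have h3 : b j = false := by simpa using hb'
        rw [h2, h3]
      · have h4 := congrFun hab j
        simpa [Function.update_of_ne hj] using h4
  have h2 := Finset.card_filter_add_card_filter_not (s := A) (fun a => a i = true)
  omega

/-- An increasing event contains at least a fraction `2 ^ (- |T|)` of its points with `a = true` on
`T`. -/
theorem half_of_mono_set {P : Type*} [Fintype P] [DecidableEq P] (A : Finset (P → Bool))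
    (hA : ∀ a ∈ A, ∀ i, Function.update a i true ∈ A) (T : Finset P) :
    A.card ≤ 2 ^ T.card * (A.filter (fun a => ∀ i ∈ T, a i = true)).card := by
  classical
  induction T using Finset.induction_on with
  | empty => simp
  | insert i T hi ih =>
    set B := A.filter (fun a => ∀ j ∈ T, a j = true) with hB
    have h1 : ∀ a ∈ B, Function.update a i true ∈ B := by
      intro a ha
      rw [hB, Finset.mem_filter] at ha ⊢
      refine ⟨hA a ha.1 i, fun j hj => ?_⟩
      by_cases hji : j = i
      · subst hji
        simp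
      · rw [Function.update_of_ne hji]
        exact ha.2 j hj
    have h2 := half_of_mono B i h1
    have h3 : B.filter (fun a => a i = true) =
        A.filter (fun a => ∀ j ∈ insert i T, a j = true) := by
      ext a
      rw [hB]
      simp only [Finset.mem_filter, Finset.mem_insert, forall_eq_or_imp]
      tauto
    rw [h3] at h2
    rw [Finset.card_insert_of_notMem hi, pow_succ]
    calc A.card ≤ 2 ^ T.card * B.card := ih
      _ ≤ 2 ^ T.card * (2 * (A.filter (fun a => ∀ j ∈ insert i T, a j = true)).card) :=
          Nat.mul_le_mul_left _ h2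
      _ = _ := by ring

/-- Second moment of the number of events which happen, for events with local supports. -/
theorem second_moment {P V A : Type*} [Fintype P] [DecidableEq P] [Fintype V] [Fintype A]
    [DecidableEq A] [Nonempty A]
    (F : V → Finset (P → A)) (T : V → Finset P) (hT : ∀ v, DependsOn' (F v) (T v)) (M : ℝ)
    (hM : ((univ.filter (fun p : V × V => ¬ Disjoint (T p.1) (T p.2))).card : ℝ) ≤ M) (μ : ℝ)
    (hμ : μ * Fintype.card (P → A) = ∑ v, ((F v).card : ℝ)) :
    ∑ a : P → A, (((univ.filter (fun v => a ∈ F v)).card : ℝ) - μ) ^ 2 ≤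
      M * Fintype.card (P → A) := by
  classical
  have hN : (0 : ℝ) < (Fintype.card (P → A) : ℝ) := by exact_mod_cast Fintype.card_pos
  set N : ℝ := (Fintype.card (P → A) : ℝ) with hNd
  have hcnt : ∀ a : P → A, ((univ.filter (fun v => a ∈ F v)).card : ℝ) =
      ∑ v, (if a ∈ F v then (1 : ℝ) else 0) := by
    intro a
    simp
  have hind : ∀ v, ∑ a : P → A, (if a ∈ F v then (1 : ℝ) else 0) = ((F v).card : ℝ) := by
    intro v
    simp
  have hsum : ∑ a : P → A, ((univ.filter (fun v => a ∈ F v)).card : ℝ) = μ * N := by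
    simp only [hcnt]
    rw [Finset.sum_comm]
    simp only [hind]
    exact hμ.symm
  have hsq : ∑ a : P → A, ((univ.filter (fun v => a ∈ F v)).card : ℝ) ^ 2 =
      ∑ p : V × V, ((F p.1 ∩ F p.2).card : ℝ) := by
    have h1 : ∀ a : P → A, ((univ.filter (fun v => a ∈ F v)).card : ℝ) ^ 2 =
        ∑ p : V × V, (if a ∈ F p.1 ∩ F p.2 then (1 : ℝ) else 0) := by
      intro a
      rw [hcnt, sq, Finset.sum_mul_sum, ← Finset.univ_product_univ, Finset.sum_product]
      refine Finset.sum_congr rfl fun u _ => Finset.sum_congr rfl fun v _ => ?_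
      by_cases hu : a ∈ F u <;> by_cases hv : a ∈ F v <;> simp [hu, hv]
    simp only [h1]
    rw [Finset.sum_comm]
    refine Finset.sum_congr rfl fun p _ => ?_
    rw [← Finset.sum_filter, Finset.sum_const, nsmul_eq_mul, mul_one]
    congr 2
    ext a
    simp
  have hprod : (μ * N) ^ 2 = ∑ p : V × V, ((F p.1).card : ℝ) * ((F p.2).card : ℝ) := by
    rw [hμ, sq, Finset.sum_mul_sum, ← Finset.univ_product_univ, Finset.sum_product]
  have hpair : ∀ p : V × V, ((F p.1 ∩ F p.2).card : ℝ) * N ≤
      ((F p.1).card : ℝ) * ((F p.2).card : ℝ) +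
        (if ¬ Disjoint (T p.1) (T p.2) then N ^ 2 else 0) := by
    intro p
    by_cases hd : Disjoint (T p.1) (T p.2)
    · rw [if_neg (not_not.mpr hd), add_zero]
      exact le_of_eq (card_inter_mul (F p.1) (F p.2) (T p.1) (T p.2) (hT _) (hT _) hd)
    · rw [if_pos hd]
      have h2 : ((F p.1 ∩ F p.2).card : ℝ) ≤ N := by
        rw [hNd]
        exact_mod_cast Finset.card_le_univ _
      have h3 : (0 : ℝ) ≤ ((F p.1).card : ℝ) * ((F p.2).card : ℝ) := by positivity
      nlinarith
  have htot : (∑ p : V × V, ((F p.1 ∩ F p.2).card : ℝ)) * N ≤ (μ * N) ^ 2 + M * N ^ 2 := by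
    rw [Finset.sum_mul]
    refine (Finset.sum_le_sum fun p _ => hpair p).trans ?_
    rw [Finset.sum_add_distrib, ← hprod]
    have h4 : ∑ p : V × V, (if ¬ Disjoint (T p.1) (T p.2) then N ^ 2 else 0) =
        ((univ.filter (fun p : V × V => ¬ Disjoint (T p.1) (T p.2))).card : ℝ) * N ^ 2 := by
      rw [← Finset.sum_filter, Finset.sum_const, nsmul_eq_mul]
    rw [h4]
    have h5 := mul_le_mul_of_nonneg_right hM (by positivity : (0 : ℝ) ≤ N ^ 2)
    linarith
  have hexp : ∑ a : P → A, (((univ.filter (fun v => a ∈ F v)).card : ℝ) - μ) ^ 2 =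
      (∑ p : V × V, ((F p.1 ∩ F p.2).card : ℝ)) - N * μ ^ 2 := by
    have h6 : ∀ a : P → A, (((univ.filter (fun v => a ∈ F v)).card : ℝ) - μ) ^ 2 =
        ((univ.filter (fun v => a ∈ F v)).card : ℝ) ^ 2 -
          2 * μ * ((univ.filter (fun v => a ∈ F v)).card : ℝ) + μ ^ 2 := by
      intro a
      ring
    simp only [h6]
    rw [Finset.sum_add_distrib, Finset.sum_sub_distrib, ← Finset.mul_sum, hsum, hsq,
      Finset.sum_const, Finset.card_univ, nsmul_eq_mul, ← hNd]
    ring
  rw [hexp]
  have h7 : (∑ p : V × V, ((F p.1 ∩ F p.2).card : ℝ)) * N ≤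
      (M * N + N * μ ^ 2) * N := by
    refine htot.trans (le_of_eq ?_)
    ring
  have h8 := le_of_mul_le_mul_right h7 hN
  linarith

/-- **Chebyshev for local events**: all but `4 M / μ²` of the points have more than `μ / 2`
events. -/
theorem cheb_local {P V A : Type*} [Fintype P] [DecidableEq P] [Fintype V] [Fintype A]
    [DecidableEq A] [Nonempty A]
    (F : V → Finset (P → A)) (T : V → Finset P) (hT : ∀ v, DependsOn' (F v) (T v)) (M : ℝ)
    (hM : ((univ.filter (fun p : V × V => ¬ Disjoint (T p.1) (T p.2))).card : ℝ) ≤ M) (μ : ℝ)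
    (hμ : μ * Fintype.card (P → A) = ∑ v, ((F v).card : ℝ)) :
    ((univ.filter (fun a : P → A =>
      ((univ.filter (fun v => a ∈ F v)).card : ℝ) ≤ μ / 2)).card : ℝ) * μ ^ 2 ≤
      4 * M * Fintype.card (P → A) := by
  classical
  have hN : (0 : ℝ) < (Fintype.card (P → A) : ℝ) := by exact_mod_cast Fintype.card_pos
  have hμ0 : 0 ≤ μ := by
    have h1 : 0 ≤ μ * (Fintype.card (P → A) : ℝ) := by
      rw [hμ]
      positivity
    exact nonneg_of_mul_nonneg_left h1 hN
  have h2 := second_moment F T hT M hM μ hμ
  have h3 : ((univ.filter (fun a : P → A =>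
      ((univ.filter (fun v => a ∈ F v)).card : ℝ) ≤ μ / 2)).card : ℝ) * (μ ^ 2 / 4) ≤
      ∑ a : P → A, (((univ.filter (fun v => a ∈ F v)).card : ℝ) - μ) ^ 2 := by
    rw [← nsmul_eq_mul, ← Finset.sum_const]
    refine (Finset.sum_le_sum ?_).trans (Finset.sum_le_sum_of_subset_of_nonneg
      (Finset.filter_subset _ _) (fun f _ _ => by positivity))
    intro a ha
    rw [Finset.mem_filter] at ha
    have h4 := ha.2
    nlinarith
  linarith

end Pool.Agent.HDL
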