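import Pool.Agent.HD.Partition
import Pool.Agent.Helper14.Sq.Lll

/-!
MP_134267_co, low degrees: partition of the vertex set by the local lemma (helper14).
-/

set_option autoImplicit false

namespace Pool.Agent.HDL

open Finset Pool.Agent.HD Pool.Agent.Helper14.Sq

/-- upper tail: more than `2 |S| / K` elements of `S` with label `i` -/
theorem lp_upper {V : Type} [Fintype V] [DecidableEq V] (S : Finset V) (K : ℕ) (i : Fin K) :
    ((univ.filter (fun f : V → Fin K =>
      2 * S.card < K * (S.filter (fun v => f v = i)).card)).card : ℝ) ≤
      (K : ℝ) ^ Fintype.card V * Real.exp (-(S.card / (10 * K))) := by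
  have hK1 : 1 ≤ K := lt_of_le_of_lt (Nat.zero_le _) i.isLt
  have hK : (1 : ℝ) ≤ K := by exact_mod_cast hK1
  have hm := part_moment_le S K i (show (0 : ℝ) ≤ 2 by norm_num)
  have hl0 := Real.log_two_gt_d9
  set n : ℝ := (S.card : ℝ) with hn
  have hn0 : 0 ≤ n := by positivity
  have key : ((univ.filter (fun f : V → Fin K =>
      2 * S.card < K * (S.filter (fun v => f v = i)).card)).card : ℝ) *
        Real.exp (Real.log 2 * (2 * n / K)) ≤
      ∑ f : V → Fin K, (2 : ℝ) ^ (S.filter (fun v => f v = i)).card := by
    rw [← nsmul_eq_mul, ← Finset.sum_const]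
    refine (Finset.sum_le_sum ?_).trans (Finset.sum_le_sum_of_subset_of_nonneg
      (Finset.filter_subset _ _) (fun f _ _ => by positivity))
    intro f hf
    rw [Finset.mem_filter] at hf
    have h1 : 2 * n < K * ((S.filter (fun v => f v = i)).card : ℝ) := by
      rw [hn]
      exact_mod_cast hf.2
    have h2 : 2 * n / K ≤ ((S.filter (fun v => f v = i)).card : ℝ) := by
      rw [div_le_iff₀ (by linarith)]
      nlinarith
    calc Real.exp (Real.log 2 * (2 * n / K))
        ≤ Real.exp (Real.log 2 * ((S.filter (fun v => f v = i)).card : ℝ)) := by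
          apply Real.exp_le_exp.mpr
          apply mul_le_mul_of_nonneg_left h2 (by linarith)
      _ = (2 : ℝ) ^ (S.filter (fun v => f v = i)).card := by
          rw [mul_comm, Real.exp_nat_mul, Real.exp_log (by norm_num)]
  have h3 := key.trans hm
  have h4 : Real.exp ((2 - 1) * n / K) ≤
      Real.exp (-(n / (10 * K))) * Real.exp (Real.log 2 * (2 * n / K)) := by
    rw [← Real.exp_add]
    apply Real.exp_le_exp.mpr
    have h5 : n / (10 * K) = (n / K) / 10 := by
      field_simp
    have h6 : 2 * n / K = 2 * (n / K) := by ring
    have h7 : (2 - 1) * n / K = n / K := by ring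
    rw [h5, h6, h7]
    have h8 : 0 ≤ n / K := by positivity
    nlinarith
  have h5 : (0 : ℝ) < Real.exp (Real.log 2 * (2 * n / K)) := Real.exp_pos _
  have h6 : (0 : ℝ) ≤ (K : ℝ) ^ Fintype.card V := by positivity
  have h7 := mul_le_mul_of_nonneg_left h4 h6
  rw [← mul_assoc] at h7
  exact le_of_mul_le_mul_right (h3.trans h7) h5

/-- **Partition by the local lemma**: all degrees into all the `K` classes are of the right order,
for all degrees larger than a constant which depends on `K` only. -/
theorem local_partition {V : Type} [Fintype V] [DecidableEq V] (G : SimpleGraph V)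
    [DecidableRel G.Adj] {d : ℕ} (hreg : ∀ v, (G.neighborFinset v).card = d) (K : ℕ)
    (hK : 1 ≤ K) (hd1 : 1 ≤ d) (hd : 8 * (K : ℝ) * (d : ℝ) ^ 2 ≤ Real.exp (d / (10 * K))) :
    ∃ f : V → Fin K, ∀ v i,
      d ≤ 2 * K * ((G.neighborFinset v).filter (fun w => f w = i)).card ∧
      K * ((G.neighborFinset v).filter (fun w => f w = i)).card ≤ 2 * d := by
  have hne : Nonempty (Fin K) := ⟨⟨0, hK⟩⟩
  set E : V → Finset (V → Fin K) := fun v => univ.filter (fun f => ∃ i,
    2 * K * ((G.neighborFinset v).filter (fun w => f w = i)).card < (G.neighborFinset v).card ∨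
    2 * (G.neighborFinset v).card < K * ((G.neighborFinset v).filter (fun w => f w = i)).card)
    with hE
  set p : ℝ := 2 * K * Real.exp (-(d / (10 * K))) with hp
  have hcard : (Fintype.card (V → Fin K) : ℝ) = (K : ℝ) ^ Fintype.card V := by
    rw [Fintype.card_fun, Fintype.card_fin]
    push_cast
    ring
  have hex : 0 < Real.exp (d / (10 * K : ℝ)) := Real.exp_pos _
  have hpd : 4 * p * ((d ^ 2 : ℕ) : ℝ) ≤ 1 := by
    rw [hp, Real.exp_neg]
    push_cast
    have : 4 * (2 * (K : ℝ) * (Real.exp (d / (10 * K)))⁻¹) * (d : ℝ) ^ 2 =
        (8 * (K : ℝ) * (d : ℝ) ^ 2) / Real.exp (d / (10 * K)) := by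
      field_simp
      ring
    rw [this, div_le_one hex]
    exact hd
  have hp0 : 0 ≤ p := by positivity
  have hd1' : (1 : ℝ) ≤ ((d ^ 2 : ℕ) : ℝ) := by
    have : 1 ≤ d ^ 2 := Nat.one_le_pow _ _ hd1
    exact_mod_cast this
  have hp2 : 2 * p < 1 := by
    rcases hp0.lt_or_eq with h | h
    · nlinarith
    · rw [← h]
      norm_num
  have hmain : ∃ a : V → Fin K, ∀ v ∈ (univ : Finset V), a ∉ E v := by
    refine lll (V := V) (A := Fin K) E (fun v => G.neighborFinset v) ?_ univ p hp0
      (d ^ 2) ?_ ?_ hpd hp2
    · intro v a b hab
      have h1 : ∀ i, (G.neighborFinset v).filter (fun w => a w = i) =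
          (G.neighborFinset v).filter (fun w => b w = i) := by
        intro i
        apply Finset.filter_congr
        intro w hw
        rw [hab w hw]
      rw [hE]
      simp only [mem_filter, mem_univ, true_and, h1]
    · intro v _
      calc (univ.filter fun u => ¬ Disjoint (G.neighborFinset v) (G.neighborFinset u)).card
          ≤ ((G.neighborFinset v).biUnion (fun w => G.neighborFinset w)).card := by
            apply Finset.card_le_card
            intro u hu
            rw [mem_filter, Finset.not_disjoint_iff] at hu
            obtain ⟨w, hw1, hw2⟩ := hu.2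
            rw [mem_biUnion]
            refine ⟨w, hw1, ?_⟩
            rw [SimpleGraph.mem_neighborFinset] at hw2 ⊢
            exact hw2.symm
        _ ≤ ∑ w ∈ G.neighborFinset v, (G.neighborFinset w).card := Finset.card_biUnion_le
        _ = d ^ 2 := by
            simp only [hreg]
            rw [Finset.sum_const, hreg, smul_eq_mul]
            ring
    · intro v _
      have h1 : ((E v).card : ℝ) ≤ ∑ i : Fin K,
          (((univ.filter (fun f : V → Fin K =>
            2 * K * ((G.neighborFinset v).filter (fun w => f w = i)).card <
              (G.neighborFinset v).card)).card : ℝ) +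
          ((univ.filter (fun f : V → Fin K =>
            2 * (G.neighborFinset v).card <
              K * ((G.neighborFinset v).filter (fun w => f w = i)).card)).card : ℝ)) := by
        have h2 : E v ⊆ (univ : Finset (Fin K)).biUnion (fun i =>
            (univ.filter (fun f : V → Fin K =>
              2 * K * ((G.neighborFinset v).filter (fun w => f w = i)).card <
              (G.neighborFinset v).card)) ∪ (univ.filter (fun f : V → Fin K =>
              2 * (G.neighborFinset v).card <
              K * ((G.neighborFinset v).filter (fun w => f w = i)).card))) := by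
          intro f hf
          rw [hE] at hf
          simp only [mem_filter, mem_univ, true_and] at hf
          obtain ⟨i, hi⟩ := hf
          rw [mem_biUnion]
          refine ⟨i, mem_univ i, ?_⟩
          rw [mem_union, mem_filter, mem_filter]
          rcases hi with h | h
          · exact Or.inl ⟨mem_univ _, h⟩
          · exact Or.inr ⟨mem_univ _, h⟩
        have h3 := (Finset.card_le_card h2).trans Finset.card_biUnion_le
        have h4 : (E v).card ≤ ∑ i : Fin K, (
            (univ.filter (fun f : V → Fin K =>
              2 * K * ((G.neighborFinset v).filter (fun w => f w = i)).card <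
              (G.neighborFinset v).card)).card + (univ.filter (fun f : V → Fin K =>
              2 * (G.neighborFinset v).card <
              K * ((G.neighborFinset v).filter (fun w => f w = i)).card)).card) :=
          h3.trans (Finset.sum_le_sum fun i _ => Finset.card_union_le _ _)
        exact_mod_cast h4
      refine h1.trans ?_
      rw [hcard, hp]
      calc ∑ i : Fin K,
          (((univ.filter (fun f : V → Fin K =>
            2 * K * ((G.neighborFinset v).filter (fun w => f w = i)).card <
              (G.neighborFinset v).card)).card : ℝ) +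
          ((univ.filter (fun f : V → Fin K =>
            2 * (G.neighborFinset v).card <
              K * ((G.neighborFinset v).filter (fun w => f w = i)).card)).card : ℝ))
          ≤ ∑ _i : Fin K, ((K : ℝ) ^ Fintype.card V * Real.exp (-(d / (10 * K))) +
            (K : ℝ) ^ Fintype.card V * Real.exp (-(d / (10 * K)))) := by
            apply Finset.sum_le_sum
            intro i _
            have h5 := part_lower (G.neighborFinset v) K i
            have h6 := lp_upper (G.neighborFinset v) K i
            rw [hreg] at h5 h6
            rw [hreg]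
            exact add_le_add h5 h6
        _ = 2 * K * Real.exp (-(d / (10 * K))) * (K : ℝ) ^ Fintype.card V := by
            rw [Finset.sum_const, Finset.card_univ, Fintype.card_fin, nsmul_eq_mul]
            ring

  obtain ⟨f, hf⟩ := hmain
  refine ⟨f, fun v i => ?_⟩
  have h1 := hf v (mem_univ v)
  rw [hE] at h1
  simp only [mem_filter, mem_univ, true_and, not_exists, not_or, not_lt] at h1
  have h2 := h1 i
  rw [hreg v] at h2
  exact h2

/-- The same partition with the sizes of the classes. -/
theorem local_partition' {V : Type} [Fintype V] [DecidableEq V] (G : SimpleGraph V)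
    [DecidableRel G.Adj] {d : ℕ} (hreg : ∀ v, (G.neighborFinset v).card = d) (K : ℕ)
    (hK : 1 ≤ K) (hd1 : 1 ≤ d) (hd : 8 * (K : ℝ) * (d : ℝ) ^ 2 ≤ Real.exp (d / (10 * K))) :
    ∃ f : V → Fin K, (∀ v i,
      d ≤ 2 * K * ((G.neighborFinset v).filter (fun w => f w = i)).card ∧
      K * ((G.neighborFinset v).filter (fun w => f w = i)).card ≤ 2 * d) ∧
      ∀ i, Fintype.card V ≤ 2 * K * (univ.filter (fun w => f w = i)).card ∧
        K * (univ.filter (fun w => f w = i)).card ≤ 2 * Fintype.card V := by
  obtain ⟨f, hf⟩ := local_partition G hreg K hK hd1 hd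
  refine ⟨f, hf, fun i => ?_⟩
  have h1 : ∑ v, ((G.neighborFinset v).filter (fun w => f w = i)).card =
      d * (univ.filter (fun w => f w = i)).card := by
    have h2 : ∀ v, ((G.neighborFinset v).filter (fun w => f w = i)).card =
        ∑ w ∈ univ.filter (fun w => f w = i), (if G.Adj v w then 1 else 0) := by
      intro v
      rw [← Finset.sum_filter, Finset.sum_const, smul_eq_mul, mul_one]
      congr 1
      ext w
      simp only [mem_filter, SimpleGraph.mem_neighborFinset, mem_univ, true_and]
      exact and_comm
    simp only [h2]
    rw [Finset.sum_comm]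
    have h3 : ∀ w, ∑ v, (if G.Adj v w then 1 else 0) = d := by
      intro w
      rw [← hreg w, ← Finset.sum_filter, Finset.sum_const, smul_eq_mul, mul_one]
      congr 1
      ext v
      simp only [mem_filter, SimpleGraph.mem_neighborFinset, mem_univ, true_and]
      exact G.adj_comm v w
    simp only [h3]
    rw [Finset.sum_const, smul_eq_mul]
    ring
  have h4 : Fintype.card V * d ≤
      2 * K * ∑ v, ((G.neighborFinset v).filter (fun w => f w = i)).card := by
    rw [Finset.mul_sum]
    calc Fintype.card V * d = ∑ _v : V, d := by
          rw [Finset.sum_const, smul_eq_mul, Finset.card_univ]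
      _ ≤ _ := Finset.sum_le_sum fun v _ => (hf v i).1
  have h5 : K * ∑ v, ((G.neighborFinset v).filter (fun w => f w = i)).card ≤
      Fintype.card V * (2 * d) := by
    rw [Finset.mul_sum]
    calc _ ≤ ∑ _v : V, 2 * d := Finset.sum_le_sum fun v _ => (hf v i).2
      _ = Fintype.card V * (2 * d) := by
          rw [Finset.sum_const, smul_eq_mul, Finset.card_univ]
  rw [h1] at h4 h5
  constructor
  · have h6 : Fintype.card V * d ≤ (2 * K * (univ.filter (fun w => f w = i)).card) * d := by
      refine h4.trans (le_of_eq ?_)
      ring
    exact Nat.le_of_mul_le_mul_right h6 hd1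
  · have h6 : (K * (univ.filter (fun w => f w = i)).card) * d ≤ (2 * Fintype.card V) * d := by
      refine (le_of_eq ?_).trans (h5.trans (le_of_eq ?_))
      · ring
      · ring
    exact Nat.le_of_mul_le_mul_right h6 hd1

end Pool.Agent.HDL
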